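import Pool.Agent.Helper30.UB.St

/-!
# Project UB, module CON: a convergent double sum
-/

set_option autoImplicit false

namespace Pool.Agent.Helper11.UB

open Polynomial Finset Pool.Agent.Helper15.FC Pool.Agent.Helper30.UB

private lemma key (k : ℕ) (hk : 1 ≤ k) (E : ℝ) (hE : E = Real.exp 9 * (k : ℝ) ^ 65) (i j : ℕ) :
    (k : ℝ) ^ ((2 : ℝ) ^ (i + 1) / (1 / (32 * E))) *
      ((k : ℝ) * Real.exp 8 / ⌈(2 ^ i / (32 * (1 / (32 * E)))) * (3 / 2 : ℝ) ^ j⌉₊) ^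
        ⌈(2 ^ i / (32 * (1 / (32 * E)))) * (3 / 2 : ℝ) ^ j⌉₊ ≤ (1 / 2 : ℝ) ^ i * (2 / 3 : ℝ) ^ j := by
  have hk1 : (1 : ℝ) ≤ k := by exact_mod_cast hk
  have hk0 : (0 : ℝ) < k := by linarith
  have h65 : (1 : ℝ) ≤ (k : ℝ) ^ 65 := one_le_pow₀ hk1
  have hE9 : (1 : ℝ) ≤ Real.exp 9 := Real.one_le_exp (by norm_num)
  have hE1 : 1 ≤ E := by
    rw [hE]
    exact one_le_mul_of_one_le_of_one_le hE9 h65
  have hE0 : 0 < E := by linarith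
  have e1 : 2 ^ i / (32 * (1 / (32 * E))) = 2 ^ i * E := by
    field_simp
  have e2 : (2 : ℝ) ^ (i + 1) / (1 / (32 * E)) = 64 * (2 ^ i * E) := by
    rw [pow_succ]
    field_simp
    norm_num
  rw [e1, e2]
  obtain ⟨K, hK⟩ : ∃ K : ℕ, K = ⌈2 ^ i * E * (3 / 2 : ℝ) ^ j⌉₊ := ⟨_, rfl⟩
  rw [← hK]
  have h1 : 2 ^ i * E * (3 / 2 : ℝ) ^ j ≤ K := by
    rw [hK]
    exact Nat.le_ceil _
  have hj : (1 : ℝ) ≤ (3 / 2 : ℝ) ^ j := one_le_pow₀ (by norm_num)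
  have hi : (1 : ℝ) ≤ (2 : ℝ) ^ i := one_le_pow₀ (by norm_num)
  have hM : 2 ^ i * E ≤ K := by
    refine le_trans ?_ h1
    exact le_mul_of_one_le_right (by positivity) hj
  have hEK : E ≤ K := by
    refine le_trans ?_ hM
    exact le_mul_of_one_le_left hE0.le hi
  have hK0 : (0 : ℝ) < K := by linarith
  -- the base
  have hb : (k : ℝ) * Real.exp 8 / K ≤ (Real.exp 1 * (k : ℝ) ^ 64)⁻¹ := by
    rw [div_le_iff₀ hK0, inv_mul_eq_div, le_div_iff₀ (by positivity)]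
    have : (k : ℝ) * Real.exp 8 * (Real.exp 1 * (k : ℝ) ^ 64) = E := by
      rw [hE, show (9 : ℝ) = 8 + 1 by norm_num, Real.exp_add]
      ring
    rw [this]
    exact hEK
  have hb0 : 0 ≤ (k : ℝ) * Real.exp 8 / K := by positivity
  have hp := pow_le_pow_left₀ hb0 hb K
  -- the first factor
  have hr : (k : ℝ) ^ (64 * (2 ^ i * E)) ≤ (k : ℝ) ^ (64 * K) := by
    have e : (k : ℝ) ^ (64 * K) = (k : ℝ) ^ (((64 * K : ℕ)) : ℝ) := (Real.rpow_natCast _ _).symm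
    rw [e]
    refine Real.rpow_le_rpow_of_exponent_le hk1 ?_
    push_cast
    linarith
  have hr0 : 0 ≤ (k : ℝ) ^ (64 * (2 ^ i * E)) := Real.rpow_nonneg hk0.le _
  refine (mul_le_mul hr hp (pow_nonneg hb0 _) (by positivity)).trans ?_
  have e3 : (k : ℝ) ^ (64 * K) * ((Real.exp 1 * (k : ℝ) ^ 64)⁻¹) ^ K = (Real.exp K)⁻¹ := by
    rw [inv_pow, mul_pow, ← pow_mul, ← Real.exp_nat_mul, mul_one]
    field_simp
  rw [e3]
  have h2 : (K : ℝ) ≤ Real.exp K := by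
    have := Real.add_one_le_exp (K : ℝ)
    linarith
  have h3 : (2 : ℝ) ^ i * (3 / 2 : ℝ) ^ j ≤ K := by
    refine le_trans ?_ h1
    have : (2 : ℝ) ^ i ≤ 2 ^ i * E := le_mul_of_one_le_right (by positivity) hE1
    exact mul_le_mul_of_nonneg_right this (by positivity)
  have h4 : (0 : ℝ) < (2 : ℝ) ^ i * (3 / 2 : ℝ) ^ j := by positivity
  have e4 : (1 / 2 : ℝ) ^ i * (2 / 3 : ℝ) ^ j = ((2 : ℝ) ^ i * (3 / 2 : ℝ) ^ j)⁻¹ := by
    rw [mul_inv, ← inv_pow, ← inv_pow]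
    norm_num
  rw [e4]
  exact inv_anti₀ h4 (h3.trans h2)

private lemma geo (x : ℝ) (h0 : 0 ≤ x) (h1 : x < 1) (n : ℕ) :
    ∑ i ∈ range n, x ^ i ≤ (1 - x)⁻¹ := by
  have h := geom_sum_eq (ne_of_lt h1) n
  rw [h]
  have h2 : (x ^ n - 1) / (x - 1) = (1 - x ^ n) * (1 - x)⁻¹ := by
    rw [← neg_div_neg_eq, div_eq_mul_inv]
    ring_nf
  rw [h2]
  have h3 : 0 < (1 - x)⁻¹ := inv_pos.2 (by linarith)
  have h4 : 0 ≤ x ^ n := pow_nonneg h0 n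
  nlinarith

/-- Module CON. -/
theorem hCON : StCON := by
  intro k hk
  have hk1 : (1 : ℝ) ≤ k := by exact_mod_cast hk
  obtain ⟨E, hE⟩ : ∃ E : ℝ, E = Real.exp 9 * (k : ℝ) ^ 65 := ⟨_, rfl⟩
  have h65 : (1 : ℝ) ≤ (k : ℝ) ^ 65 := one_le_pow₀ hk1
  have h9 : (2 : ℝ) ≤ Real.exp 9 := by
    have := Real.add_one_le_exp (9 : ℝ)
    linarith
  have hE2 : 2 ≤ E := by
    rw [hE]
    nlinarith
  refine ⟨1 / (32 * E), by positivity, ?_, fun I J => ?_⟩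
  · rw [div_le_div_iff₀ (by positivity) (by norm_num)]
    linarith
  · calc _ ≤ ∑ i ∈ range I, ∑ j ∈ range J, (1 / 2 : ℝ) ^ i * (2 / 3 : ℝ) ^ j :=
          sum_le_sum fun i _ => sum_le_sum fun j _ => key k hk E hE i j
      _ = (∑ i ∈ range I, (1 / 2 : ℝ) ^ i) * ∑ j ∈ range J, (2 / 3 : ℝ) ^ j := by
          rw [sum_mul_sum]
      _ ≤ (1 - 1 / 2)⁻¹ * (1 - 2 / 3)⁻¹ :=
          mul_le_mul (geo _ (by norm_num) (by norm_num) I) (geo _ (by norm_num) (by norm_num) J)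
            (sum_nonneg fun j _ => by positivity) (by norm_num)
      _ = 6 := by norm_num

end Pool.Agent.Helper11.UB
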